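import Pool.Agent.Ins33.Cube

set_option autoImplicit false

namespace Pool.Agent.Results.MP_cc0bf2_co.AverageChanges

/-- The hypercube `Q_n`: its vertices are the 0-1 vectors of length `n`, and two vertices are
adjacent when they differ in exactly one coordinate. -/
def cube (n : ℕ) : SimpleGraph (Fin n → Bool) where
  Adj x y := ∃! i, x i ≠ y i
  symm := ⟨fun x y h => by simpa only [ne_comm] using h⟩
  loopless := ⟨fun x h => by obtain ⟨i, hi, _⟩ := h; exact hi rfl⟩

/-- The antipode of a vertex: every coordinate is changed. -/
def antipode {n : ℕ} (v : Fin n → Bool) : Fin n → Bool := fun i => !(v i)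

/-- The number of places where two consecutive entries of a list differ. -/
def changes : List Bool → ℕ
  | a :: b :: l => (if a = b then 0 else 1) + changes (b :: l)
  | _ => 0

/-- The list of the colours of the edges of a walk in `Q_n`, in the order of the walk, for a
colouring `c` of the edges of `Q_n` with two colours. -/
def colours {n : ℕ} (c : (cube n).edgeSet → Bool) {u v : Fin n → Bool} (p : (cube n).Walk u v) :
    List Bool := p.darts.map fun d => c ⟨d.edge, d.edge_mem⟩

/-- `m_c(v)`: the minimum number of colour changes over all paths of `Q_n` from `v` to its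
antipode (a path is a walk that repeats no vertex; it need not be geodesic). -/
noncomputable def minChanges {n : ℕ} (c : (cube n).edgeSet → Bool) (v : Fin n → Bool) : ℕ :=
  ⨅ p : (cube n).Path v (antipode v), changes (colours c (p : (cube n).Walk v (antipode v)))

lemma changes_cons_le (a : Bool) (l : List Bool) : changes l ≤ changes (a :: l) := by
  cases l with
  | nil => simp [changes]
  | cons b l => simp [changes]

lemma changes_swap (a b : Bool) (l : List Bool) :
    changes (a :: l) ≤ (if a = b then 0 else 1) + changes (b :: l) := by
  cases l with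
  | nil => simp [changes]
  | cons d l =>
    simp only [changes]
    cases a <;> cases b <;> cases d <;> simp <;> omega

lemma changes_sublist {l₁ l₂ : List Bool} (h : l₁.Sublist l₂) :
    changes l₁ ≤ changes l₂ ∧ ∀ a, changes (a :: l₁) ≤ changes (a :: l₂) := by
  induction h with
  | slnil => exact ⟨le_refl _, fun _ => le_refl _⟩
  | @cons l₁ l₂ b _ ih =>
    refine ⟨ih.1.trans (changes_cons_le b l₂), fun a => ?_⟩
    have h1 := ih.2 a
    have h2 := changes_swap a b l₂
    simp only [changes] at *
    omega
  | @cons_cons l₁ l₂ b _ ih =>
    refine ⟨ih.2 b, fun a => ?_⟩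
    have h1 := ih.2 b
    simp only [changes] at *
    omega

lemma changes_append_le (l : List Bool) (b : Bool) : changes l ≤ changes (l ++ [b]) :=
  (changes_sublist (List.sublist_append_left l [b])).1

lemma changes_double (l : List Bool) (b : Bool) :
    changes (l ++ [b] ++ [b]) = changes (l ++ [b]) := by
  induction l with
  | nil => simp [changes]
  | cons a l ih =>
    cases l with
    | nil => simp [changes]
    | cons d l => simp only [List.cons_append, changes] at *; omega

lemma changes_flip (l : List Bool) (b : Bool) :
    changes (l ++ [!b]) ≤ changes (l ++ [b]) + 1 := by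
  induction l with
  | nil => simp [changes]
  | cons a l ih =>
    cases l with
    | nil => simp only [List.cons_append, List.nil_append, changes]; split_ifs <;> omega
    | cons d l => simp only [List.cons_append, changes] at *; omega

open Pool.Agent.Ins33.Cube

lemma adj_flp {n : ℕ} (u : Fin n → Bool) (i : Fin n) : (cube n).Adj u (flp u i) := by
  refine ⟨i, by change u i ≠ flp u i i; rw [flp_same]; cases u i <;> simp, ?_⟩
  intro j hj
  by_contra hne
  exact hj (flp_ne u i j hne).symm

/-- A colouring of the edges as a function of two vertices. -/
noncomputable def toFun {n : ℕ} (c : (cube n).edgeSet → Bool) (x y : Fin n → Bool) : Bool :=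
  open Classical in if h : (cube n).Adj x y then c ⟨s(x, y), h⟩ else false

lemma toFun_symm {n : ℕ} (c : (cube n).edgeSet → Bool) (x y : Fin n → Bool) :
    toFun c x y = toFun c y x := by
  unfold toFun
  by_cases h : (cube n).Adj x y
  · rw [dif_pos h, dif_pos h.symm]
    congr 1
    exact Subtype.ext Sym2.eq_swap
  · rw [dif_neg h, dif_neg (fun h' => h h'.symm)]

/-- From `Reach` to a walk. -/
lemma reach_walk {n : ℕ} (c : (cube n).edgeSet → Bool) {v u : Fin n → Bool} {b : Bool} {m : ℕ}
    (h : Reach (toFun c) v u b m) :
    ∃ p : (cube n).Walk v u, changes (colours c p ++ [b]) ≤ m := by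
  induction h with
  | start => exact ⟨SimpleGraph.Walk.nil, by simp [colours, changes]⟩
  | step u i b m _ hb ih =>
    obtain ⟨p, hp⟩ := ih
    refine ⟨p.concat (adj_flp u i), ?_⟩
    have h1 : colours c (p.concat (adj_flp u i)) = colours c p ++ [b] := by
      unfold colours
      rw [SimpleGraph.Walk.darts_concat, List.concat_eq_append, List.map_append]
      congr 1
      unfold toFun at hb
      rw [dif_pos (adj_flp u i)] at hb
      simp only [List.map_cons, List.map_nil]
      rw [← hb]
      rfl
    rw [h1, changes_double]
    exact hp
  | turn u b m _ ih =>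
    obtain ⟨p, hp⟩ := ih
    exact ⟨p, (changes_flip _ b).trans (by omega)⟩

lemma minChanges_le {n : ℕ} (c : (cube n).edgeSet → Bool) (v : Fin n → Bool) (b : Bool) {m : ℕ}
    (h : Reach (toFun c) v (antipode v) b m) : minChanges c v ≤ m := by
  classical
  obtain ⟨p, hp⟩ := reach_walk c h
  have h1 : changes (colours c p.bypass) ≤ changes (colours c p) := by
    apply (changes_sublist _).1
    exact (SimpleGraph.Walk.darts_bypass_sublist_darts p).map _
  have h2 : minChanges c v ≤ changes (colours c p.bypass) :=
    ciInf_le' (fun q : (cube n).Path v (antipode v) =>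
      changes (colours c (q : (cube n).Walk v (antipode v)))) ⟨p.bypass, p.bypass_isPath⟩
  have h3 := changes_append_le (colours c p) b
  omega

lemma minChanges_attained {n : ℕ} (c : (cube n).edgeSet → Bool) (v : Fin n → Bool) :
    ∃ p : (cube n).Path v (antipode v),
      changes (colours c (p : (cube n).Walk v (antipode v))) = minChanges c v := by
  classical
  obtain ⟨m, hm⟩ := Reach.exists (toFun c) v (antipode v) false
  obtain ⟨p, -⟩ := reach_walk c hm
  have : Nonempty ((cube n).Path v (antipode v)) := ⟨⟨p.bypass, p.bypass_isPath⟩⟩
  exact ciInf_mem (fun q : (cube n).Path v (antipode v) =>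
      changes (colours c (q : (cube n).Walk v (antipode v))))

theorem result (n : ℕ) (c : (cube n).edgeSet → Bool) :
    (∀ v : Fin n → Bool, ∃ p : (cube n).Path v (antipode v),
      changes (colours c (p : (cube n).Walk v (antipode v))) = minChanges c v) ∧
    (∑ v : Fin n → Bool, (minChanges c v : ℝ)) / 2 ^ n ≤ Real.pi / 2 * Real.sqrt n := by
  refine ⟨minChanges_attained c, ?_⟩
  have hkey := key_bound (n := n)
    (fun v u => ((g (toFun c) v u false : ℝ) + (g (toFun c) v u true : ℝ) - 1) / 2)
    (fun v u => (g (toFun c) v u true : ℝ) - (g (toFun c) v u false : ℝ))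
    (fun u i => if toFun c u (flp u i) then 1 else -1)
    (by intro u i; split_ifs <;> norm_num)
    (by
      intro v u
      rcases g_diff (toFun c) v u with h | h
      · rw [h]; push_cast; simp
      · rw [h]; push_cast; simp)
    (by
      intro v u i
      rw [flp_flp, toFun_symm c (flp u i) u]
      cases hcol : toFun c u (flp u i)
      · have := g_flp (toFun_symm c) v u i false hcol
        rw [this]
        simp; ring
      · have := g_flp (toFun_symm c) v u i true hcol
        rw [this]
        simp; ring)
    (by
      intro v
      have h1 := g_self (toFun c) v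
      rcases g_diff (toFun c) v v with h | h
      · rw [h, h1]; norm_num
      · omega)
  have hle : ∀ v : Fin n → Bool, (minChanges c v : ℝ)
      ≤ ((g (toFun c) v (antipode v) false : ℝ) + (g (toFun c) v (antipode v) true : ℝ) - 1) / 2 := by
    intro v
    have h0 := minChanges_le c v false (g_mem (toFun c) v (antipode v) false)
    have h1 := minChanges_le c v true (g_mem (toFun c) v (antipode v) true)
    have h0' : (minChanges c v : ℝ) ≤ (g (toFun c) v (antipode v) false : ℝ) := by exact_mod_cast h0
    have h1' : (minChanges c v : ℝ) ≤ (g (toFun c) v (antipode v) true : ℝ) := by exact_mod_cast h1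
    rcases g_diff (toFun c) v (antipode v) with h | h
    · rw [h]; push_cast; linarith
    · rw [h]; push_cast; linarith
  rw [div_le_iff₀ (by positivity)]
  refine (Finset.sum_le_sum fun v _ => hle v).trans (hkey.trans (le_of_eq ?_))
  ring

end Pool.Agent.Results.MP_cc0bf2_co.AverageChanges
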